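import Pool.Agent.TH116.PT.Linear

/-!
# Dade's conjecture: alternating sums smaller than the block are enough
-/

universe u

namespace Pool.Agent.Results.MP_3f89b9_al.SumSmallerThanBlock

open Pool.Agent.TH116.PT

/-- The blocks `B` of the problem for a fixed prime `ℓ`, with the number `k(B)` of characters, the
alternating sums `σ_d(B)` for the characters of defect `d`, and the products of `B` with cyclic groups
of order `ℓ ^ m`. -/
structure Blocks (l : ℕ) where
  /-- the blocks -/
  Blk : Type u
  /-- the number of irreducible characters of the block -/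
  k : Blk → ℕ
  /-- the alternating sum over the chains, for the characters of defect `d` -/
  σ : Blk → ℕ → ℤ
  /-- the product of the block with a cyclic group of order `ℓ ^ m` -/
  tw : Blk → ℕ → Blk
  k_tw : ∀ B m, k (tw B m) = k B * l ^ m
  σ_tw : ∀ B m d, σ (tw B m) (d + m) = σ B d * l ^ m

/-- All alternating sums are zero for all blocks if and only if they are at most `ε k(B) + C` in
absolute value for each `ε > 0`, with `C` independent of the block and of the defect. -/
theorem result {l : ℕ} (hl : 2 ≤ l) (T : Blocks.{u} l) :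
    (∀ B d, T.σ B d = 0) ↔
      ∀ ε : ℝ, 0 < ε → ∃ C : ℝ, ∀ B d, |(T.σ B d : ℝ)| ≤ ε * T.k B + C := by
  constructor
  · intro h ε hε
    refine ⟨0, fun B d => ?_⟩
    rw [h B d]
    have : (0 : ℝ) ≤ T.k B := Nat.cast_nonneg _
    simp only [Int.cast_zero, abs_zero, add_zero]
    positivity
  · intro h B d
    refine eq_zero_of_linear (s := T.k B) fun ε hε => ?_
    obtain ⟨C, hC⟩ := h ε hε
    refine ⟨C, fun N => ⟨l ^ N, ?_, ?_⟩⟩
    · exact (Nat.lt_pow_self (by omega : 1 < l)).le
    · have h1 := hC (T.tw B N) (d + N)
      rw [T.k_tw, T.σ_tw] at h1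
      push_cast at h1 ⊢
      rw [abs_mul, abs_of_nonneg (by positivity : (0 : ℝ) ≤ (l : ℝ) ^ N)] at h1
      exact h1

end Pool.Agent.Results.MP_3f89b9_al.SumSmallerThanBlock
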